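import Pool.Agent.H.MP_4f19f9_lc.SD.Weak

/-!
# MP_4f19f9_lc, partial answer to Q1

The Shannon capacity is computable if and only if it is the infimum of a uniformly computable
sequence of points of the asymptotic spectrum of graphs. The definitions are in
Pool.Agent.SC.Defs and Pool.Agent.H.MP_4f19f9_lc.SD.Defs.
-/

namespace Pool.Agent.Results.MP_4f19f9_lc.EffectiveDuality

open Pool.Agent.SC Pool.Agent.SD

/-- Let R be computable with R ≥ 2 and R(v) = v^o(1). The following are equivalent: (1) the
Shannon capacity is computable; (2) it is the pointwise infimum of a uniformly computable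
sequence of points of the asymptotic spectrum of graphs; (3) the infimum of such a sequence is at
most R(v) times the capacity; (4) the infimum of a uniformly computable sequence of
submultiplicative functions which are at least the independence number is at most R(v) times the
capacity; (5) some uniformly computable sequence of submultiplicative functions which are at
least the independence number has, for every join G of a Cayley graph and an edgeless graph whose
capacity equals its independence number, a member which is less than R(v) times the independence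
number at G. -/
theorem result (R : ℕ → ℕ) (hR : Computable R) (hR2 : ∀ v, 2 ≤ R v) (hRs : Subpoly R) :
    List.TFAE [
      ThetaComputable,
      ∃ Φ : ℕ → Code → ℝ, UniformlyComputable Φ ∧ (∀ i, IsSpectral (Φ i)) ∧
        ∀ c, theta (gr c) = ⨅ i, Φ i c,
      ∃ Φ : ℕ → Code → ℝ, UniformlyComputable Φ ∧ (∀ i, IsSpectral (Φ i)) ∧
        ∀ c, ⨅ i, Φ i c ≤ R c.1 * theta (gr c),
      ∃ Φ : ℕ → Code → ℝ, UniformlyComputable Φ ∧ (∀ i, IsBound (Φ i)) ∧
        ∀ c, ⨅ i, Φ i c ≤ R c.1 * theta (gr c),
      ∃ Φ : ℕ → Code → ℝ, UniformlyComputable Φ ∧ (∀ i, IsBound (Φ i)) ∧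
        ∀ c : Code, 0 < c.1 → IsCayleyJoin (gr c) → theta (gr c) = (gr c).indepNum →
          ∃ i, Φ i c < R c.1 * (gr c).indepNum] := by
  tfae_have 1 → 2 := exists_spectral
  tfae_have 2 → 3 := by
    rintro ⟨Φ, h1, h2, h3⟩
    refine ⟨Φ, h1, h2, fun c => ?_⟩
    rw [← h3 c]
    have h4 : (2 : ℝ) ≤ R c.1 := by exact_mod_cast hR2 c.1
    nlinarith [theta_nonneg (gr c)]
  tfae_have 3 → 4 := by
    rintro ⟨Φ, h1, h2, h3⟩
    exact ⟨Φ, h1, fun i => (h2 i).isBound, h3⟩
  tfae_have 4 → 1 := by
    rintro ⟨Φ, h1, h2, h3⟩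
    exact computable_of_bounds hRs h1 h2 h3
  tfae_have 2 → 5 := by
    rintro ⟨Φ, h1, h2, h3⟩
    refine ⟨Φ, h1, fun i => (h2 i).isBound, fun c hc _ h => ?_⟩
    have hne : Nonempty (Fin c.1) := ⟨⟨0, hc⟩⟩
    have h4 : (2 : ℝ) ≤ R c.1 := by exact_mod_cast hR2 c.1
    have h5 := one_le_theta (gr c)
    apply exists_lt_of_ciInf_lt
    rw [← h3 c, ← h]
    nlinarith
  tfae_have 5 → 1 := by
    rintro ⟨Φ, h1, h2, h3⟩
    exact computable_of_weak hR hRs h1 h2 h3
  tfae_finish

end Pool.Agent.Results.MP_4f19f9_lc.EffectiveDuality
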