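import Pool.Agent.SC.Sqrt

/-!
# MP_4f19f9_lc, partial answer to Q1

Equivalent forms of the computability of the Shannon capacity. The definitions are in
Pool.Agent.SC.Defs.
-/

namespace Pool.Agent.Results.MP_4f19f9_lc.GapEquivalences

open Pool.Agent.SC

/-- Let R be computable with R ≥ 2 and R(v) = v^o(1). The Shannon capacity is computable if and
only if it can be bounded from above within the factor R(v) on Cayley graphs; or if capacity at
most the square root of v can be told from capacity at least R(v) times this root on Cayley
graphs; or if capacity equal to the independence number can be told from capacity at least R(v)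
times the independence number on joins of a Cayley graph and an edgeless graph; or if the
blocklength needed to reach the capacity of Cayley graphs within the factor R(v) is bounded by a
computable function of v; or if there is a computable bound for the least n such that the
independence number of the n-th power exceeds the n-th power of the independence number, for the
graphs whose capacity is at least R(v) times the independence number. -/
theorem result :
    ∀ R : ℕ → ℕ, Computable R → (∀ v, 2 ≤ R v) → Subpoly R →
      List.TFAE [ThetaComputable,
        ∃ P : Code × ℕ → Prop, ComputablePred P ∧ SolvesThreshold R allGraphs P,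
        ∃ P : Code × ℕ → Prop, REPred P ∧ SolvesThreshold R cayleyGraphs P,
        ∃ P : Code → Prop, ComputablePred P ∧ SolvesSqrt R allGraphs P,
        ∃ P : Code → Prop, REPred P ∧ SolvesSqrt R cayleyGraphs P,
        ∃ P : Code → Prop, ComputablePred P ∧ SolvesIndep R allGraphs P,
        ∃ P : Code → Prop, REPred P ∧ SolvesIndep R cayleyJoins P,
        ∃ B : ℕ → ℕ, Computable B ∧ BoundsRate R allGraphs B,
        ∃ B : ℕ → ℕ, Computable B ∧ BoundsRate R cayleyGraphs B,
        ∃ B : ℕ → ℕ, Computable B ∧ BoundsFirstGain R allGraphs B,
        ∃ B : ℕ → ℕ, Computable B ∧ BoundsFirstGain R cayleyJoins B] :=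
  fun _ hR hR2 hRs => tfae_main hR hR2 hRs

end Pool.Agent.Results.MP_4f19f9_lc.GapEquivalences
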