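import Pool.Agent.H.MP_4f19f9_lc.h56.Pad

/-!
# MP_4f19f9_lc, Q1: exponentially late first gains

Graphs whose Shannon capacity exceeds the independence number, although the independence numbers
of exponentially many strong powers show no gain. The definitions of the strong power and of the
capacity are in Pool.Agent.SC.Defs.
-/

namespace Pool.Agent.Results.MP_4f19f9_lc.LateFirstGain

open Pool.Agent.SC

/-- There is a constant C such that for all k and v with v ≥ C (k+1)^10 some graph G with v
vertices has Shannon capacity larger than its independence number, although for every n ≤ 2^k the
independence number of the n-th strong power of G is the n-th power of the independence number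
of G. -/
theorem result : ∃ C : ℕ, ∀ k v : ℕ, C * (k + 1) ^ 10 ≤ v →
    ∃ G : SimpleGraph (Fin v), (G.indepNum : ℝ) < theta G ∧
      ∀ n ≤ 2 ^ k, (spow G (Fin n)).indepNum = G.indepNum ^ n :=
  Stall.late_first_gain

end Pool.Agent.Results.MP_4f19f9_lc.LateFirstGain
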