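import Pool.Agent.H.MP_4f19f9_lc.MC.Fin

/-!
# MP_4f19f9_lc, partial answer to Q1

A growing number of submultiplicative upper bounds for the Shannon capacity can all be far from
it at one and the same graph. The definitions are in Pool.Agent.SC.Defs,
Pool.Agent.H.MP_4f19f9_lc.SD.Defs and Pool.Agent.H.MP_4f19f9_lc.MC.Defs.
-/

namespace Pool.Agent.Results.MP_4f19f9_lc.ManyBounds

open Pool.Agent.SC Pool.Agent.SD Pool.Agent.MC

/-- There is a constant C such that for v ≥ C, t ≥ 1 and C (log v)^(1/t) ≤ N ≤ log v there are
M ≥ N / (C log N) graphs with at most v vertices and with capacity at most (C log v / N)^N, such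
that for any k submultiplicative functions which are at least the independence number, at least
M - (t - 1) k of the M graphs are such that all k functions are at least (v / 4)^(1/t) there. The
graphs can be Cayley graphs of a group (Z/2)^r, and they can be joins of such graphs and edgeless
graphs, with capacity equal to the independence number. -/
theorem result : ∃ C : ℝ, 0 < C ∧ ∀ v : ℕ, C ≤ v → ∀ (t : ℕ) (N : ℝ), 1 ≤ t →
    C * Real.log v ^ (1 / (t : ℝ)) ≤ N → N ≤ Real.log v →
    ∃ M : ℕ, N / (C * Real.log N) ≤ M ∧
      HardList (fun c => IsCubelike (gr c)) v M t ((C * Real.log v / N) ^ N)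
        (((v : ℝ) / 4) ^ (1 / (t : ℝ))) ∧
      HardList (fun c => IsCubelikeJoin (gr c) ∧ theta (gr c) = (gr c).indepNum)
        v M t ((C * Real.log v / N) ^ N) (((v : ℝ) / 4) ^ (1 / (t : ℝ))) :=
  main

end Pool.Agent.Results.MP_4f19f9_lc.ManyBounds
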